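import Pool.Agent.helper82.Disc.Defs

set_option autoImplicit false
set_option linter.unusedSectionVars false

/-! Module A1 (averages over one row) of the DISC project. -/

namespace Pool.Agent.helper82.Disc

open Finset

/-- finite Hoeffding: `X : ι → ℝ`, `|X| ≤ c`, `|lam| * (2c) ≤ 1`. -/
theorem hoeffding_avg {ι : Type} [Fintype ι] [Nonempty ι] (X : ι → ℝ) (c lam : ℝ)
    (hX : ∀ i, |X i| ≤ c) (hl : |lam| * (2 * c) ≤ 1) :
    ∑ i, Real.exp (lam * X i) ≤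
      (Fintype.card ι : ℝ) * Real.exp (lam * ((∑ i, X i) / Fintype.card ι) + 4 * lam ^ 2 * c ^ 2) := by
  set n : ℝ := (Fintype.card ι : ℝ) with hn
  have hn0 : 0 < n := by rw [hn]; exact_mod_cast Fintype.card_pos
  set μ : ℝ := (∑ i, X i) / n with hμ
  have hμc : |μ| ≤ c := by
    rw [hμ, abs_div, abs_of_pos hn0, div_le_iff₀ hn0]
    calc |∑ i, X i| ≤ ∑ i, |X i| := abs_sum_le_sum_abs _ _
      _ ≤ ∑ _i : ι, c := sum_le_sum fun i _ => hX i
      _ = c * n := by rw [sum_const, card_univ, nsmul_eq_mul, hn]; ring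
  have hsum0 : ∑ i, (X i - μ) = 0 := by
    rw [sum_sub_distrib, sum_const, card_univ, nsmul_eq_mul, ← hn, hμ]
    field_simp
    ring
  have hY : ∀ i, |X i - μ| ≤ 2 * c := by
    intro i
    calc |X i - μ| ≤ |X i| + |μ| := abs_sub _ _
      _ ≤ 2 * c := by linarith [hX i]
  have hone : ∀ i, Real.exp (lam * (X i - μ)) ≤ 1 + lam * (X i - μ) + 4 * lam ^ 2 * c ^ 2 := by
    intro i
    have h1 : |lam * (X i - μ)| ≤ 1 := by
      rw [abs_mul]
      exact (mul_le_mul_of_nonneg_left (hY i) (abs_nonneg _)).trans hl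
    have h2 := abs_le.1 (Real.abs_exp_sub_one_sub_id_le h1)
    have h3 : (lam * (X i - μ)) ^ 2 ≤ 4 * lam ^ 2 * c ^ 2 := by
      have h4 : (X i - μ) ^ 2 ≤ (2 * c) ^ 2 := by
        rw [← sq_abs]
        exact pow_le_pow_left₀ (abs_nonneg _) (hY i) 2
      calc (lam * (X i - μ)) ^ 2 = lam ^ 2 * (X i - μ) ^ 2 := by ring
        _ ≤ lam ^ 2 * (2 * c) ^ 2 := mul_le_mul_of_nonneg_left h4 (sq_nonneg _)
        _ = _ := by ring
    linarith [h2.2]
  have hmain : ∑ i, Real.exp (lam * (X i - μ)) ≤ n * Real.exp (4 * lam ^ 2 * c ^ 2) := by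
    calc ∑ i, Real.exp (lam * (X i - μ)) ≤ ∑ i, (1 + lam * (X i - μ) + 4 * lam ^ 2 * c ^ 2) := sum_le_sum fun i _ => hone i
      _ = n * (1 + 4 * lam ^ 2 * c ^ 2) := by
          rw [sum_add_distrib, sum_add_distrib, ← mul_sum, hsum0, sum_const, sum_const, card_univ, nsmul_eq_mul,
            nsmul_eq_mul, ← hn]
          ring
      _ ≤ n * Real.exp (4 * lam ^ 2 * c ^ 2) := by
          apply mul_le_mul_of_nonneg_left _ hn0.le
          linarith [Real.add_one_le_exp (4 * lam ^ 2 * c ^ 2)]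
  have e : ∀ i, Real.exp (lam * X i) = Real.exp (lam * μ) * Real.exp (lam * (X i - μ)) := by
    intro i
    rw [← Real.exp_add]
    congr 1
    ring
  rw [sum_congr rfl fun i _ => e i, ← mul_sum, Real.exp_add]
  calc Real.exp (lam * μ) * ∑ i, Real.exp (lam * (X i - μ))
      ≤ Real.exp (lam * μ) * (n * Real.exp (4 * lam ^ 2 * c ^ 2)) :=
        mul_le_mul_of_nonneg_left hmain (Real.exp_pos _).le
    _ = _ := by ring

variable {F : Type} [Field F] [Fintype F] [DecidableEq F]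

theorem A1_units_sum (g : F → ℝ) : ∑ m : Fˣ, g (m : F) = ∑ z : F, g z - g 0 := by
  have h1 : ∑ m : Fˣ, g (m : F) = ∑ z ∈ univ.erase (0 : F), g z := by
    refine sum_bij (fun m _ => (m : F)) ?_ ?_ ?_ ?_
    · intro m _
      exact mem_erase.2 ⟨m.ne_zero, mem_univ _⟩
    · intro m _ m' _ h
      exact Units.ext h
    · intro z hz
      exact ⟨Units.mk0 z (mem_erase.1 hz).1, mem_univ _, rfl⟩
    · intro m _
      rfl
  rw [h1, ← sum_erase_add univ g (mem_univ (0 : F))]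
  ring

/-- the sum over the nonzero multipliers -/
theorem A1_mean {ψ : F → ℝ} (hψ0 : ∑ y, ψ y = 0) (y d : F) (hd : d ≠ 0) :
    ∑ m : Fˣ, ψ (y + (m : F) * d) = - ψ y := by
  have h1 : ∑ m : Fˣ, ψ (y + (m : F) * d) = ∑ m : Fˣ, ψ (y + (m : F)) := by
    have := Equiv.sum_comp (Equiv.mulRight (Units.mk0 d hd)) (fun m : Fˣ => ψ (y + (m : F)))
    rw [← this]
    refine sum_congr rfl fun m _ => ?_
    simp
  rw [h1, A1_units_sum (fun z => ψ (y + z))]
  have h2 : ∑ z : F, ψ (y + z) = 0 := by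
    rw [← hψ0]
    exact Equiv.sum_comp (Equiv.addLeft y) ψ
  rw [h2]
  simp

/-- mean value of `hs` over the first multiplier -/
noncomputable def hsb : (k : ℕ) → (Fin k → Finset F) → (F → ℝ) → F → ℝ
  | 0, _, _, _ => 0
  | _ + 1, R, ψ, y => -((R 0).card : ℝ) / (Fintype.card Fˣ : ℝ) * ψ y

theorem A1_card (F : Type) [Field F] [Fintype F] [DecidableEq F] : (Fintype.card F : ℝ) = Fintype.card Fˣ + 1 := by
  have := Fintype.card_units F
  have h2 : 0 < Fintype.card F := Fintype.card_pos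
  rw [this]
  push_cast [Nat.cast_sub (Nat.one_le_iff_ne_zero.2 h2.ne')]
  ring

theorem A1_card_le (A : Finset F) (h : (0 : F) ∉ A) : (A.card : ℝ) ≤ Fintype.card Fˣ := by
  have h1 : A ⊆ univ.erase 0 := by
    intro x hx
    refine mem_erase.2 ⟨?_, mem_univ _⟩
    rintro rfl
    exact h hx
  have h2 := card_le_card h1
  rw [card_erase_of_mem (mem_univ _), card_univ] at h2
  rw [Fintype.card_units]
  exact_mod_cast h2

theorem A1_sel_mem (s : F) (R : Finset F) (c : ℝ) (hc : c ∈ Set.Icc (0 : ℝ) 1) (a : F) :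
    sel s R c a ∈ Set.Icc (0 : ℝ) 1 := by
  unfold sel
  split_ifs
  · exact hc
  · norm_num
  · norm_num

theorem A1_hsb_eq (k : ℕ) (R : Fin k → Finset F) (hR : ∀ j, (0 : F) ∉ R j) (ψ : F → ℝ) :
    ∃ κ : ℝ, 0 ≤ κ ∧ κ ≤ 1 ∧ (∀ z, hsb k R ψ z = -κ * ψ z) := by
  cases k with
  | zero => exact ⟨0, le_refl _, zero_le_one, fun z => by simp [hsb]⟩
  | succ k =>
    refine ⟨((R 0).card : ℝ) / (Fintype.card Fˣ : ℝ), by positivity, ?_, fun z => ?_⟩
    · rw [div_le_one (by exact_mod_cast Fintype.card_pos)]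
      exact A1_card_le _ (hR 0)
    · unfold hsb
      ring

theorem Bt_avg_aux (ψ : F → ℝ) (hψ : ∀ y, |ψ y| ≤ 1) (hψ0 : ∑ y, ψ y = 0)
    (lam : ℝ) (hlam : |lam| * (2 * (Fintype.card F : ℝ) ^ 2) ≤ 1) :
    ∀ (k : ℕ) (u s : Fin k → F) (L R : Fin k → Finset F) (cL cR : ℝ)
    (_ : ∀ j, (0 : F) ∉ L j) (_ : ∀ j, (0 : F) ∉ R j)
    (_ : cL ∈ Set.Icc (0 : ℝ) 1) (_ : cR ∈ Set.Icc (0 : ℝ) 1) (τ : F) (I : Finset F) (a : F → F)
    (_ : (I.card : ℝ) ≤ Fintype.card Fˣ),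
    ∑ m : Fin k → Fˣ, Real.exp (lam * (∑ δ ∈ I, hs k R m ψ (a δ) + Bt k u s L R cL cR ψ τ m)) ≤
      (Fintype.card Fˣ : ℝ) ^ k *
        Real.exp (lam * ∑ δ ∈ I, hsb k R ψ (a δ) +
          (|lam| * (2 * k + 1) + 4 * lam ^ 2 * (Fintype.card F : ℝ) ^ 4 * k)) := by
  intro k
  induction k with
  | zero =>
    intro u s L R cL cR hL hR hcL hcR τ I a hI
    simp only [hs, hsb, Bt, sum_const_zero, zero_add, mul_zero, pow_zero, one_mul, Nat.cast_zero, add_zero,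
      univ_unique, sum_singleton, mul_one]
    apply Real.exp_le_exp.2
    have h1 : |cL * cR * ψ τ| ≤ 1 := by
      rw [abs_mul, abs_mul, abs_of_nonneg hcL.1, abs_of_nonneg hcR.1]
      have h2 : cL * cR ≤ 1 := mul_le_one₀ hcL.2 hcR.1 hcR.2
      exact mul_le_one₀ h2 (abs_nonneg _) (hψ τ)
    calc lam * (cL * cR * ψ τ) ≤ |lam * (cL * cR * ψ τ)| := le_abs_self _
      _ = |lam| * |cL * cR * ψ τ| := abs_mul _ _
      _ ≤ |lam| * 1 := mul_le_mul_of_nonneg_left h1 (abs_nonneg _)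
      _ = |lam| := mul_one _
  | succ k ih =>
    intro u s L R cL cR hL hR hcL hcR τ I a hI
    set q : ℝ := (Fintype.card Fˣ : ℝ) with hq
    have hq0 : 0 < q := by rw [hq]; exact_mod_cast Fintype.card_pos
    have hbq : (Fintype.card F : ℝ) = q + 1 := A1_card F
    -- the function of the first multiplier
    obtain ⟨κ, hκ0, hκ1, hκ⟩ := A1_hsb_eq k (Fin.tail R) (fun j => hR j.succ) ψ
    let ω : F → ℝ := fun δ => sel (s 0) (R 0) cR (u 0 + δ) - κ
    have hω : ∀ δ, |ω δ| ≤ 1 := by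
      intro δ
      have := A1_sel_mem (s 0) (R 0) cR hcR (u 0 + δ)
      rw [abs_le]
      constructor
      · linarith [this.1]
      · linarith [this.2]
    let Z : Fˣ → ℝ := fun m0 => ∑ δ ∈ I, ∑ δ' ∈ R 0, ψ (a δ + (m0 : F) * δ') +
      ∑ δ ∈ L 0, ω δ * ψ (τ + (m0 : F) * (u 0 - s 0 + δ))
    have hZabs : ∀ m0, |Z m0| ≤ (Fintype.card F : ℝ) ^ 2 := by
      intro m0
      have h1 : |∑ δ ∈ I, ∑ δ' ∈ R 0, ψ (a δ + (m0 : F) * δ')| ≤ q * q := by
        calc |∑ δ ∈ I, ∑ δ' ∈ R 0, ψ (a δ + (m0 : F) * δ')|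
            ≤ ∑ δ ∈ I, |∑ δ' ∈ R 0, ψ (a δ + (m0 : F) * δ')| := abs_sum_le_sum_abs _ _
          _ ≤ ∑ δ ∈ I, q := by
              refine sum_le_sum fun δ _ => ?_
              calc |∑ δ' ∈ R 0, ψ (a δ + (m0 : F) * δ')| ≤ ∑ δ' ∈ R 0, |ψ (a δ + (m0 : F) * δ')| := abs_sum_le_sum_abs _ _
                _ ≤ ∑ _δ' ∈ R 0, (1 : ℝ) := sum_le_sum fun δ' _ => hψ _
                _ = ((R 0).card : ℝ) := by simp
                _ ≤ q := A1_card_le _ (hR 0)
          _ = (I.card : ℝ) * q := by rw [sum_const, nsmul_eq_mul]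
          _ ≤ q * q := mul_le_mul_of_nonneg_right hI hq0.le
      have h2 : |∑ δ ∈ L 0, ω δ * ψ (τ + (m0 : F) * (u 0 - s 0 + δ))| ≤ q := by
        calc |∑ δ ∈ L 0, ω δ * ψ (τ + (m0 : F) * (u 0 - s 0 + δ))|
            ≤ ∑ δ ∈ L 0, |ω δ * ψ (τ + (m0 : F) * (u 0 - s 0 + δ))| := abs_sum_le_sum_abs _ _
          _ ≤ ∑ _δ ∈ L 0, (1 : ℝ) := by
              refine sum_le_sum fun δ _ => ?_
              rw [abs_mul]
              exact mul_le_one₀ (hω δ) (abs_nonneg _) (hψ _)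
          _ = ((L 0).card : ℝ) := by simp
          _ ≤ q := A1_card_le _ (hL 0)
      calc |Z m0| ≤ q * q + q := (abs_add_le _ _).trans (add_le_add h1 h2)
        _ ≤ (Fintype.card F : ℝ) ^ 2 := by rw [hbq]; nlinarith
    have hmean : |∑ m0 : Fˣ, ∑ δ ∈ L 0, ω δ * ψ (τ + (m0 : F) * (u 0 - s 0 + δ))| ≤ 2 * q := by
      rw [sum_comm]
      have h1 : ∀ δ ∈ L 0, |∑ m0 : Fˣ, ω δ * ψ (τ + (m0 : F) * (u 0 - s 0 + δ))| ≤
          1 + (if δ = s 0 - u 0 then q else 0) := by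
        intro δ _
        rw [← mul_sum, abs_mul]
        split_ifs with hδ
        · have h2 : |∑ m0 : Fˣ, ψ (τ + (m0 : F) * (u 0 - s 0 + δ))| ≤ q := by
            calc |∑ m0 : Fˣ, ψ (τ + (m0 : F) * (u 0 - s 0 + δ))| ≤ ∑ m0 : Fˣ, |ψ (τ + (m0 : F) * (u 0 - s 0 + δ))| :=
                  abs_sum_le_sum_abs _ _
              _ ≤ ∑ _m0 : Fˣ, (1 : ℝ) := sum_le_sum fun _ _ => hψ _
              _ = q := by simp [hq]
          calc |ω δ| * |∑ m0 : Fˣ, ψ (τ + (m0 : F) * (u 0 - s 0 + δ))| ≤ 1 * q :=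
                mul_le_mul (hω δ) h2 (abs_nonneg _) zero_le_one
            _ ≤ 1 + q := by linarith
        · have hd : u 0 - s 0 + δ ≠ 0 := by
            intro h
            apply hδ
            have : δ = -(u 0 - s 0) := by
              have := eq_neg_of_add_eq_zero_right h
              exact this
            rw [this]; ring
          rw [A1_mean hψ0 τ _ hd, abs_neg]
          calc |ω δ| * |ψ τ| ≤ 1 * 1 := mul_le_mul (hω δ) (hψ τ) (abs_nonneg _) zero_le_one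
            _ = 1 + 0 := by norm_num
      calc |∑ δ ∈ L 0, ∑ m0 : Fˣ, ω δ * ψ (τ + (m0 : F) * (u 0 - s 0 + δ))|
          ≤ ∑ δ ∈ L 0, |∑ m0 : Fˣ, ω δ * ψ (τ + (m0 : F) * (u 0 - s 0 + δ))| := abs_sum_le_sum_abs _ _
        _ ≤ ∑ δ ∈ L 0, (1 + (if δ = s 0 - u 0 then q else 0)) := sum_le_sum h1
        _ = ((L 0).card : ℝ) + ∑ δ ∈ L 0, (if δ = s 0 - u 0 then q else 0) := by
            rw [sum_add_distrib]; simp
        _ ≤ q + q := by
            apply add_le_add (A1_card_le _ (hL 0))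
            rw [sum_ite_eq']
            split_ifs
            · exact le_refl _
            · exact hq0.le
        _ = 2 * q := by ring
    have hZmean : ∑ m0 : Fˣ, Z m0 = q * ∑ δ ∈ I, hsb (k + 1) R ψ (a δ) +
        ∑ m0 : Fˣ, ∑ δ ∈ L 0, ω δ * ψ (τ + (m0 : F) * (u 0 - s 0 + δ)) := by
      rw [sum_add_distrib]
      congr 1
      rw [sum_comm, mul_sum]
      refine sum_congr rfl fun δ _ => ?_
      rw [sum_comm]
      have h1 : ∀ δ' ∈ R 0, ∑ m0 : Fˣ, ψ (a δ + (m0 : F) * δ') = - ψ (a δ) := by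
        intro δ' hδ'
        refine A1_mean hψ0 _ _ ?_
        rintro rfl
        exact hR 0 hδ'
      rw [sum_congr rfl h1, sum_const, nsmul_eq_mul]
      unfold hsb
      rw [← hq]
      field_simp
    -- sum over the first multiplier
    have hcons : ∑ m : Fin (k + 1) → Fˣ, Real.exp (lam * (∑ δ ∈ I, hs (k + 1) R m ψ (a δ) +
        Bt (k + 1) u s L R cL cR ψ τ m)) =
        ∑ m0 : Fˣ, ∑ m' : Fin k → Fˣ, Real.exp (lam * (∑ δ ∈ I, hs (k + 1) R (Fin.cons m0 m' : Fin (k + 1) → Fˣ) ψ (a δ) +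
        Bt (k + 1) u s L R cL cR ψ τ (Fin.cons m0 m' : Fin (k + 1) → Fˣ))) := by
      rw [← (Fin.consEquiv (fun _ : Fin (k + 1) => Fˣ)).sum_comp, Fintype.sum_prod_type]
      rfl
    have hinner : ∀ m0 : Fˣ, ∑ m' : Fin k → Fˣ, Real.exp (lam * (∑ δ ∈ I, hs (k + 1) R (Fin.cons m0 m' : Fin (k + 1) → Fˣ) ψ (a δ) +
        Bt (k + 1) u s L R cL cR ψ τ (Fin.cons m0 m' : Fin (k + 1) → Fˣ))) ≤
        q ^ k * Real.exp (|lam| * (2 * k + 1) + 4 * lam ^ 2 * (Fintype.card F : ℝ) ^ 4 * k) * Real.exp (lam * Z m0) := by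
      intro m0
      have e1 : ∀ m' : Fin k → Fˣ, ∑ δ ∈ I, hs (k + 1) R (Fin.cons m0 m' : Fin (k + 1) → Fˣ) ψ (a δ) +
          Bt (k + 1) u s L R cL cR ψ τ (Fin.cons m0 m' : Fin (k + 1) → Fˣ) =
          (∑ δ ∈ I, ∑ δ' ∈ R 0, ψ (a δ + (m0 : F) * δ') +
            ∑ δ ∈ L 0, sel (s 0) (R 0) cR (u 0 + δ) * ψ (τ + (m0 : F) * (u 0 - s 0 + δ))) +
          (∑ δ ∈ L 0, hs k (Fin.tail R) m' ψ (τ + (m0 : F) * (u 0 - s 0 + δ)) +
            Bt k (Fin.tail u) (Fin.tail s) (Fin.tail L) (Fin.tail R) cL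
              (sel (s 0) (R 0) cR (u 0)) ψ (τ + (m0 : F) * (u 0 - s 0)) m') := by
        intro m'
        simp only [hs, Bt, Fin.cons_zero, Fin.tail_cons]
        rw [sum_add_distrib]
        ring
      have e2 : ∀ m' : Fin k → Fˣ, Real.exp (lam * (∑ δ ∈ I, hs (k + 1) R (Fin.cons m0 m' : Fin (k + 1) → Fˣ) ψ (a δ) +
          Bt (k + 1) u s L R cL cR ψ τ (Fin.cons m0 m' : Fin (k + 1) → Fˣ))) =
          Real.exp (lam * (∑ δ ∈ I, ∑ δ' ∈ R 0, ψ (a δ + (m0 : F) * δ') +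
            ∑ δ ∈ L 0, sel (s 0) (R 0) cR (u 0 + δ) * ψ (τ + (m0 : F) * (u 0 - s 0 + δ)))) *
          Real.exp (lam * (∑ δ ∈ L 0, hs k (Fin.tail R) m' ψ (τ + (m0 : F) * (u 0 - s 0 + δ)) +
            Bt k (Fin.tail u) (Fin.tail s) (Fin.tail L) (Fin.tail R) cL
              (sel (s 0) (R 0) cR (u 0)) ψ (τ + (m0 : F) * (u 0 - s 0)) m')) := by
        intro m'
        rw [e1 m', mul_add, Real.exp_add]
      rw [sum_congr rfl fun m' _ => e2 m', ← mul_sum]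
      have h3 := ih (Fin.tail u) (Fin.tail s) (Fin.tail L) (Fin.tail R) cL (sel (s 0) (R 0) cR (u 0))
        (fun j => hL j.succ) (fun j => hR j.succ) hcL (A1_sel_mem _ _ _ hcR _) (τ + (m0 : F) * (u 0 - s 0))
        (L 0) (fun δ => τ + (m0 : F) * (u 0 - s 0 + δ)) (A1_card_le _ (hL 0))
      refine (mul_le_mul_of_nonneg_left h3 (Real.exp_pos _).le).trans (le_of_eq ?_)
      rw [Real.exp_add]
      have e4 : Real.exp (lam * Z m0) = Real.exp (lam * (∑ δ ∈ I, ∑ δ' ∈ R 0, ψ (a δ + (m0 : F) * δ') +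
            ∑ δ ∈ L 0, sel (s 0) (R 0) cR (u 0 + δ) * ψ (τ + (m0 : F) * (u 0 - s 0 + δ)))) *
          Real.exp (lam * ∑ δ ∈ L 0, hsb k (Fin.tail R) ψ (τ + (m0 : F) * (u 0 - s 0 + δ))) := by
        rw [← Real.exp_add, ← mul_add]
        congr 2
        simp only [Z, ω, hκ]
        rw [add_assoc, ← sum_add_distrib]
        congr 1
        refine sum_congr rfl fun δ _ => ?_
        ring
      rw [e4]
      ring
    rw [hcons]
    calc ∑ m0 : Fˣ, ∑ m' : Fin k → Fˣ, Real.exp (lam * (∑ δ ∈ I, hs (k + 1) R (Fin.cons m0 m' : Fin (k + 1) → Fˣ) ψ (a δ) +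
        Bt (k + 1) u s L R cL cR ψ τ (Fin.cons m0 m' : Fin (k + 1) → Fˣ)))
        ≤ ∑ m0 : Fˣ, q ^ k * Real.exp (|lam| * (2 * k + 1) + 4 * lam ^ 2 * (Fintype.card F : ℝ) ^ 4 * k) * Real.exp (lam * Z m0) :=
          sum_le_sum fun m0 _ => hinner m0
      _ = q ^ k * Real.exp (|lam| * (2 * k + 1) + 4 * lam ^ 2 * (Fintype.card F : ℝ) ^ 4 * k) * ∑ m0 : Fˣ, Real.exp (lam * Z m0) := by
          rw [mul_sum]
      _ ≤ q ^ k * Real.exp (|lam| * (2 * k + 1) + 4 * lam ^ 2 * (Fintype.card F : ℝ) ^ 4 * k) *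
          (q * Real.exp (lam * ((∑ m0, Z m0) / q) + 4 * lam ^ 2 * ((Fintype.card F : ℝ) ^ 2) ^ 2)) := by
          apply mul_le_mul_of_nonneg_left _ (by positivity)
          exact hoeffding_avg Z _ lam hZabs hlam
      _ ≤ q ^ k * Real.exp (|lam| * (2 * k + 1) + 4 * lam ^ 2 * (Fintype.card F : ℝ) ^ 4 * k) *
          (q * Real.exp (lam * ∑ δ ∈ I, hsb (k + 1) R ψ (a δ) + 2 * |lam| + 4 * lam ^ 2 * ((Fintype.card F : ℝ) ^ 2) ^ 2)) := by
          apply mul_le_mul_of_nonneg_left _ (by positivity)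
          apply mul_le_mul_of_nonneg_left _ hq0.le
          apply Real.exp_le_exp.2
          have h5 : lam * ((∑ m0, Z m0) / q) = lam * ∑ δ ∈ I, hsb (k + 1) R ψ (a δ) +
              lam * ((∑ m0 : Fˣ, ∑ δ ∈ L 0, ω δ * ψ (τ + (m0 : F) * (u 0 - s 0 + δ))) / q) := by
            rw [hZmean]
            field_simp
          have h6 : lam * ((∑ m0 : Fˣ, ∑ δ ∈ L 0, ω δ * ψ (τ + (m0 : F) * (u 0 - s 0 + δ))) / q) ≤ 2 * |lam| := by
            refine (le_abs_self _).trans ?_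
            rw [abs_mul, abs_div, abs_of_pos hq0]
            have : |∑ m0 : Fˣ, ∑ δ ∈ L 0, ω δ * ψ (τ + (m0 : F) * (u 0 - s 0 + δ))| / q ≤ 2 := by
              rw [div_le_iff₀ hq0]; exact hmean
            nlinarith [abs_nonneg lam]
          linarith
      _ = _ := by
          have e7 : Real.exp (lam * ∑ δ ∈ I, hsb (k + 1) R ψ (a δ) +
              (|lam| * (2 * ((k + 1 : ℕ) : ℝ) + 1) + 4 * lam ^ 2 * (Fintype.card F : ℝ) ^ 4 * ((k + 1 : ℕ) : ℝ))) =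
              Real.exp (|lam| * (2 * k + 1) + 4 * lam ^ 2 * (Fintype.card F : ℝ) ^ 4 * k) *
              Real.exp (lam * ∑ δ ∈ I, hsb (k + 1) R ψ (a δ) + 2 * |lam| + 4 * lam ^ 2 * ((Fintype.card F : ℝ) ^ 2) ^ 2) := by
            rw [← Real.exp_add]
            congr 1
            push_cast
            ring
          rw [e7, pow_succ q k]
          ring

/-- average of `Bt` for fixed `τ`. -/
theorem Bt_avg (k : ℕ) (u s : Fin k → F) (L R : Fin k → Finset F) (cL cR : ℝ)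
    (hL : ∀ j, (0 : F) ∉ L j) (hR : ∀ j, (0 : F) ∉ R j)
    (hcL : cL ∈ Set.Icc (0 : ℝ) 1) (hcR : cR ∈ Set.Icc (0 : ℝ) 1)
    (ψ : F → ℝ) (hψ : ∀ y, |ψ y| ≤ 1) (hψ0 : ∑ y, ψ y = 0)
    (lam : ℝ) (hlam : |lam| * (2 * (Fintype.card F : ℝ) ^ 2) ≤ 1) (τ : F) :
    ∑ m : Fin k → Fˣ, Real.exp (lam * Bt k u s L R cL cR ψ τ m) ≤
      (Fintype.card Fˣ : ℝ) ^ k *
        Real.exp (|lam| * (2 * k + 1) + 4 * lam ^ 2 * (Fintype.card F : ℝ) ^ 4 * k) := by
  have h := Bt_avg_aux ψ hψ hψ0 lam hlam k u s L R cL cR hL hR hcL hcR τ ∅ id (by simp)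
  simpa using h

end Pool.Agent.helper82.Disc
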